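import Pool.Agent.N803.LC.Vec

/-!
# The adapted basis for an algebra and its commutant on a symplectic space
-/

set_option autoImplicit false
set_option linter.unusedSectionVars false

open Module

noncomputable section

namespace Pool.Agent.N803.LC

open Pool.Agent.N208.LC
open scoped Classical

variable {N n : ℕ} {V : Type} [AddCommGroup V] [Module ℂ V]
variable [NeZero N] {M : Fin n → Matrix (Fin N) (Fin N) ℂ →ₗ[ℂ] Module.End ℂ V} {σ : Fin n → ℂ}
variable [FiniteDimensional ℂ V] {E B : Submodule ℂ (Module.End ℂ V)} {z : Module.End ℂ V}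
variable {ω : V →ₗ[ℂ] V →ₗ[ℂ] ℂ}

/-- the place of a type -/
def pl (t : TT M σ) : Fin n := t.1.1

section op

variable (h : Alg2 V ω E B z N) (hw : Wd V B z N n M σ) {dv : Fin N → TT M σ → V}
  (hd : IsD ω dv)

theorem opX_ev (b : Fin n) (x : Matrix (Fin N) (Fin N) ℂ) (q : Fin N) (t : TT M σ) :
    opX (bas h hw hd) pl b x (ev M q t) = if t.1.1 = b then ∑ p, x p q • ev M p t else 0 := by
  have h1 : opX (bas h hw hd) pl b x (bas h hw hd (true, q, t)) =
      if t.1.1 = b then ∑ p, x p q • bas h hw hd (true, p, t) else 0 := by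
    unfold opX
    rw [Basis.constr_basis]
    simp only [pl, if_true]
  simp only [bas_true] at h1
  exact h1

theorem opX_dv (b : Fin n) (x : Matrix (Fin N) (Fin N) ℂ) (p : Fin N) (t : TT M σ) :
    opX (bas h hw hd) pl b x (dv p t) = if t.1.1 = b then -∑ q, x p q • dv q t else 0 := by
  have h1 : opX (bas h hw hd) pl b x (bas h hw hd (false, p, t)) =
      if t.1.1 = b then -∑ q, x p q • bas h hw hd (false, q, t) else 0 := by
    unfold opX
    rw [Basis.constr_basis]
    simp only [pl, Bool.false_eq_true, if_false]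
  simp only [bas_false] at h1
  exact h1

theorem opX_eq (b : Fin n) (x : Matrix (Fin N) (Fin N) ℂ) (M' : Module.End ℂ V)
    (hM' : ∀ u v, ω (M b x u) v = ω u (M' v)) :
    opX (bas h hw hd) pl b x = if pos (σ b) then M b x - M' else 0 := by
  apply (bas h hw hd).ext
  rintro ⟨s, p, t⟩
  by_cases hb : pos (σ b)
  · rw [if_pos hb, LinearMap.sub_apply]
    cases s
    · rw [bas_false, opX_dv]
      have h1 : M b x (dv p t) = 0 := by
        have h2 : M b x (z (dv p t)) = σ b • M b x (dv p t) := by
          rw [← Module.End.mul_apply, hw.zr]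
          rfl
        rw [z_dv h hw hd, map_smul] at h2
        have h3 : (σ b + σ t.1.1) • M b x (dv p t) = 0 := by
          rw [add_smul, ← h2, neg_smul]
          exact neg_add_cancel _
        exact (smul_eq_zero.1 h3).resolve_left (pos_add hb t.1.2)
      have h4 : M' (dv p t) = if t.1.1 = b then ∑ q, x p q • dv q t else 0 := by
        apply nd2 h
        intro u
        rw [← hM', hd, ll_M hw]
        split_ifs
        · rw [map_sum]
          refine Finset.sum_congr rfl fun q _ => ?_
          rw [map_smul, hd]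
        · rw [map_zero]
      rw [h1, h4]
      split_ifs <;> simp
    · rw [bas_true, opX_ev, M_ev hw]
      have h1 : M' (ev M p t) = 0 := by
        apply nd2 h
        intro u
        rw [← hM', map_zero]
        have h2 : z (M b x u) = σ b • M b x u := by
          rw [← Module.End.mul_apply, hw.zl]
          rfl
        exact iso0 h.skew h2 (z_ev hw p t) (pos_add hb t.1.2)
      rw [h1, sub_zero]
  · rw [if_neg hb, LinearMap.zero_apply]
    have hne : t.1.1 ≠ b := by
      rintro rfl
      exact hb t.1.2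
    cases s
    · rw [bas_false, opX_dv, if_neg hne]
    · rw [bas_true, opX_ev, if_neg hne]

theorem op1 (b : Fin n) (x : Matrix (Fin N) (Fin N) ℂ) :
    opX (bas h hw hd) pl b x ∈ B ∧
      ∀ u v, ω (opX (bas h hw hd) pl b x u) v + ω u (opX (bas h hw hd) pl b x v) = 0 := by
  obtain ⟨M', hM'B, hM'⟩ := h.adjB _ (hw.mem b x)
  rw [opX_eq h hw hd b x M' hM']
  split_ifs with hb
  · refine ⟨B.sub_mem (hw.mem b x) hM'B, fun u v => ?_⟩
    have h1 := hM' u v
    have h2 := hM' v u
    have h3 := h.alt (M' u) v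
    have h4 := h.alt (M b x v) u
    rw [LinearMap.sub_apply, LinearMap.sub_apply, map_sub, map_sub, LinearMap.sub_apply]
    linear_combination h1 - h3 - h2 + h4
  · refine ⟨B.zero_mem, fun u v => ?_⟩
    simp

theorem aeval_vec {v : V} {a : ℂ} (hv : v ≠ 0) (hz : z v = a • v) (q : Polynomial ℂ) :
    Polynomial.aeval z q v = Polynomial.eval a q • v :=
  Module.End.aeval_apply_of_hasEigenvector ⟨Module.End.mem_eigenspace_iff.2 hz, hv⟩

theorem op2 (b : Fin n) (x : Matrix (Fin N) (Fin N) ℂ) (hx : x.trace = 0) (q : Polynomial ℂ) :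
    LinearMap.trace ℂ V (opX (bas h hw hd) pl b x * Polynomial.aeval z q) = 0 := by
  set e := bas h hw hd with he
  have htr : ∑ p, x p p = 0 := by
    have : x.trace = ∑ p, x p p := rfl
    rw [← this, hx]
  rw [LinearMap.trace_eq_matrix_trace ℂ e]
  unfold Matrix.trace
  simp only [Matrix.diag_apply, LinearMap.toMatrix_apply]
  rw [sum_Ix]
  have h1 : ∀ y : Fin N × TT M σ, e.repr ((opX e pl b x * Polynomial.aeval z q) (e (true, y)))
      (true, y) = (if y.2.1.1 = b then Polynomial.eval (σ y.2.1.1) q else 0) * x y.1 y.1 := by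
    rintro ⟨p, t⟩
    have hv : ev M p t ≠ 0 := by
      rw [← bas_true h hw hd]
      exact (bas h hw hd).ne_zero _
    have hev : e (true, p, t) = ev M p t := bas_true h hw hd p t
    rw [Module.End.mul_apply, hev, aeval_vec hv (z_ev hw p t), map_smul, opX_ev h hw hd]
    split_ifs with hb
    · simp only [← bas_true h hw hd, ← he]
      rw [map_smul, map_sum, Finsupp.smul_apply, Finset.sum_apply', smul_eq_mul]
      congr 1
      rw [Finset.sum_eq_single p]
      · simp
      · intro c _ hc
        rw [map_smul, Basis.repr_self, Finsupp.smul_apply, Finsupp.single_apply, if_neg, smul_zero]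
        intro h2
        exact hc (congrArg (fun w => w.2.1) h2)
      · intro h
        exact absurd (Finset.mem_univ _) h
    · simp
  have h2 : ∀ y : Fin N × TT M σ, e.repr ((opX e pl b x * Polynomial.aeval z q) (e (false, y)))
      (false, y) = -(if y.2.1.1 = b then Polynomial.eval (-σ y.2.1.1) q else 0) * x y.1 y.1 := by
    rintro ⟨p, t⟩
    have hv : dv p t ≠ 0 := by
      rw [← bas_false h hw hd]
      exact (bas h hw hd).ne_zero _
    have hev : e (false, p, t) = dv p t := bas_false h hw hd p t
    rw [Module.End.mul_apply, hev, aeval_vec hv (z_dv h hw hd p t), map_smul, opX_dv h hw hd]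
    split_ifs with hb
    · simp only [← bas_false h hw hd, ← he]
      rw [map_smul, map_neg, map_sum, Finsupp.smul_apply, Finsupp.neg_apply, Finset.sum_apply',
        smul_eq_mul, neg_mul, mul_neg]
      congr 2
      rw [Finset.sum_eq_single p]
      · simp
      · intro c _ hc
        rw [map_smul, Basis.repr_self, Finsupp.smul_apply, Finsupp.single_apply, if_neg, smul_zero]
        intro h2
        exact hc (congrArg (fun w => w.2.1) h2)
      · intro h
        exact absurd (Finset.mem_univ _) h
    · simp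
  simp_rw [h1, h2]
  rw [Fintype.sum_prod_type_right, Fintype.sum_prod_type_right]
  simp only [← Finset.mul_sum, htr, mul_zero, Finset.sum_const_zero, add_zero]

/-! ### The commutant -/

/-- the operators in `E` -/
def RE (t t' : TT M σ) : Module.End ℂ V := ∑ p, (ll M p t).smulRight (ev M p t')

theorem RE_apply (t t' : TT M σ) (v : V) : RE t t' v = ∑ p, ll M p t v • ev M p t' := by
  unfold RE
  rw [LinearMap.sum_apply]
  rfl

include h hw in
theorem RE_mem (t t' : TT M σ) (htt : t.1.1 = t'.1.1) : RE t t' ∈ E := by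
  rw [h.commE]
  intro X hX
  obtain ⟨x, rfl⟩ := hw.surj X hX
  rw [Finset.sum_mul, Finset.mul_sum]
  refine Finset.sum_congr rfl fun i _ => ?_
  apply LinearMap.ext
  intro v
  rw [Module.End.mul_apply, Module.End.mul_apply, RE_apply, RE_apply, map_sum]
  simp only [map_smul, M_ev hw, ll_M hw, htt]
  by_cases hi : t'.1.1 = i
  · simp only [if_pos hi, Finset.smul_sum, Finset.sum_smul, smul_smul]
    rw [Finset.sum_comm]
    refine Finset.sum_congr rfl fun p _ => Finset.sum_congr rfl fun q _ => ?_
    rw [mul_comm]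
    rfl
  · simp only [if_neg hi, smul_zero, zero_smul]

/-- the adjoint operators -/
def QE (ω : V →ₗ[ℂ] V →ₗ[ℂ] ℂ) (dv : Fin N → TT M σ → V) (t t' : TT M σ) : Module.End ℂ V :=
  ∑ p, (ω (ev M p t')).smulRight (dv p t)

include hd in
theorem QE_adj (t t' : TT M σ) (u v : V) : ω u (QE ω dv t t' v) = ω (RE t t' u) v := by
  unfold QE
  rw [LinearMap.sum_apply, map_sum, RE_apply, map_sum, LinearMap.sum_apply]
  refine Finset.sum_congr rfl fun p _ => ?_
  rw [LinearMap.smulRight_apply, map_smul, hd, map_smul, LinearMap.smul_apply, smul_eq_mul,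
    smul_eq_mul, mul_comm]

include h hw hd in
theorem QE_mem (t t' : TT M σ) (htt : t.1.1 = t'.1.1) : QE ω dv t t' ∈ E := by
  have hR := RE_mem h hw t t' htt
  rw [h.commE] at hR ⊢
  intro X hX
  obtain ⟨X', hX'B, hX'⟩ := h.adjB X hX
  have hX2 : ∀ u v, ω u (X v) = ω (X' u) v := by
    intro u v
    rw [h.alt, hX', ← h.alt]
  apply LinearMap.ext
  intro v
  apply nd2 h
  intro u
  rw [Module.End.mul_apply, Module.End.mul_apply, hX2, QE_adj hd, QE_adj hd, hX2]
  have h1 := LinearMap.congr_fun (hR X' hX'B) u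
  rw [Module.End.mul_apply, Module.End.mul_apply] at h1
  rw [h1]

include hw in
theorem RE_ev (t t' t₁ : TT M σ) (p : Fin N) :
    RE t t' (ev M p t₁) = if t = t₁ then ev M p t' else 0 := by
  rw [RE_apply]
  simp only [ll_ev hw]
  rw [Finset.sum_eq_single p]
  · by_cases ht : t = t₁ <;> simp [ht]
  · intro c _ hc
    simp [hc]
  · intro h
    exact absurd (Finset.mem_univ _) h

include h hw hd in
theorem RE_dv (t t' t₁ : TT M σ) (p : Fin N) : RE t t' (dv p t₁) = 0 := by
  rw [RE_apply]
  refine Finset.sum_eq_zero fun q _ => ?_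
  rw [← hd, dv_dv h hw hd, zero_smul]

theorem del (β : V →ₗ[ℂ] V →ₗ[ℂ] ℂ) (hβ : IsDelB (bas h hw hd) pl β) :
    ∃ Q ∈ E, ∀ u v, β u v = ω u (Q v) := by
  obtain ⟨s, t, t', htt, hβ⟩ := hβ
  have hext : ∀ Q : Module.End ℂ V,
      (∀ x y, β (bas h hw hd x) (bas h hw hd y) = ω (bas h hw hd x) (Q (bas h hw hd y))) →
      ∀ u v, β u v = ω u (Q v) := by
    intro Q hQ u v
    have h1 : β = ω.compl₂ Q :=
      (bas h hw hd).ext fun x => (bas h hw hd).ext fun y => hQ x y
    rw [h1]
    rfl
  cases s
  · refine ⟨-RE t' t, E.neg_mem (RE_mem h hw t' t htt.symm), hext _ ?_⟩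
    rintro ⟨a, p, t₁⟩ ⟨b, q, t₂⟩
    rw [hβ, LinearMap.neg_apply, map_neg]
    cases b
    · rw [bas_false, RE_dv h hw hd, map_zero, neg_zero, if_neg]
      simp
    · rw [bas_true, RE_ev hw]
      by_cases h2 : t' = t₂
      · rw [if_pos h2]
        cases a
        · rw [bas_false, dv_ev h hw hd, neg_neg]
          exact if_congr (by simp [h2, and_comm]) rfl rfl
        · rw [bas_true, ev_ev h hw, neg_zero, if_neg]
          simp
      · rw [if_neg h2, map_zero, neg_zero, if_neg]
        rintro ⟨_, _, _, h5, _⟩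
        exact h2 h5.symm
  · refine ⟨QE ω dv t t', QE_mem h hw hd t t' htt, hext _ ?_⟩
    rintro ⟨a, p, t₁⟩ ⟨b, q, t₂⟩
    rw [hβ, QE_adj hd]
    cases a
    · rw [bas_false, RE_dv h hw hd, map_zero, LinearMap.zero_apply, if_neg]
      simp
    · rw [bas_true, RE_ev hw]
      by_cases h2 : t = t₁
      · rw [if_pos h2]
        cases b
        · rw [bas_false, ev_dv hw hd]
          exact if_congr (by simp [h2, and_comm, eq_comm]) rfl rfl
        · rw [bas_true, ev_ev h hw, if_neg]
          simp
      · rw [if_neg h2, map_zero, LinearMap.zero_apply, if_neg]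
        rintro ⟨_, _, h4, _, _⟩
        exact h2 h4.symm

end op


/-- **The adapted basis.** -/
theorem adb : S_ADB := by
  intro V _ _ _ ω E B z N h
  obtain ⟨n, M, σ, hw⟩ := wedd h
  rcases Nat.eq_zero_or_pos N with hN | hN
  · subst hN
    have hM : ∀ i, M i 1 = 0 := by
      intro i
      rw [Subsingleton.elim (1 : Matrix (Fin 0) (Fin 0) ℂ) 0, map_zero]
    have h1 : (1 : Module.End ℂ V) = 0 := by
      rw [← hw.one]
      exact Finset.sum_eq_zero fun i _ => hM i
    have hsub : Subsingleton V := by
      refine ⟨fun a b => ?_⟩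
      have h2 := LinearMap.congr_fun h1 a
      have h3 := LinearMap.congr_fun h1 b
      have h4 : a = 0 := h2
      have h5 : b = 0 := h3
      rw [h4, h5]
    refine ⟨0, Fin 0, inferInstance, inferInstance, fun t => t, Basis.empty V, ?_, ?_⟩
    · intro b
      exact b.elim0
    · rintro β ⟨_, t, _⟩
      exact t.elim0
  · have : NeZero N := ⟨hN.ne'⟩
    choose dv hdv using fun (p : Fin N) (t : TT M σ) => exd h (ll M p t)
    have hd : IsD ω dv := hdv
    refine ⟨n, TT M σ, inferInstance, inferInstance, pl, bas h hw hd, ?_, ?_⟩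
    · intro b x
      obtain ⟨h1, h2⟩ := op1 h hw hd b x
      exact ⟨h1, h2, fun hx q => op2 h hw hd b x hx q⟩
    · exact fun β hβ => del h hw hd β hβ

end Pool.Agent.N803.LC
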