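import Pool.Agent.N803.LC.Wedd

/-!
# The vectors of the adapted basis
-/

set_option autoImplicit false
set_option linter.unusedSectionVars false

open Module

noncomputable section

namespace Pool.Agent.N803.LC

open Pool.Agent.N208.LC
open scoped Classical

/-- one of two opposite numbers is positive -/
def pos (a : ℂ) : Prop := 0 < a.re ∨ (a.re = 0 ∧ 0 < a.im)

theorem pos_add {a b : ℂ} (ha : pos a) (hb : pos b) : a + b ≠ 0 := by
  intro h
  have h1 : a.re + b.re = 0 := by
    have := congrArg Complex.re h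
    simpa using this
  have h2 : a.im + b.im = 0 := by
    have := congrArg Complex.im h
    simpa using this
  rcases ha with ha | ⟨ha, ha'⟩ <;> rcases hb with hb | ⟨hb, hb'⟩ <;> linarith

theorem npos_add {a b : ℂ} (ha0 : a ≠ 0) (ha : ¬ pos a) (hb : ¬ pos b) : a + b ≠ 0 := by
  intro h
  have h1 : a.re + b.re = 0 := by
    have := congrArg Complex.re h
    simpa using this
  have h2 : a.im + b.im = 0 := by
    have := congrArg Complex.im h
    simpa using this
  unfold pos at ha hb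
  push Not at ha hb
  have e1 : a.re = 0 := by linarith [ha.1, hb.1]
  have e2 : b.re = 0 := by linarith
  have e3 := ha.2 e1
  have e4 := hb.2 e2
  apply ha0
  apply Complex.ext
  · simpa using e1
  · have : a.im = 0 := by linarith
    simpa using this

variable {N : ℕ}

/-- matrix units -/
def uu (p q : Fin N) : Matrix (Fin N) (Fin N) ℂ := Matrix.single p q 1

theorem uu_apply (p q r s : Fin N) : uu p q r s = if p = r ∧ q = s then 1 else 0 := by
  unfold uu
  rw [Matrix.single_apply]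

theorem mul_uu (x : Matrix (Fin N) (Fin N) ℂ) (q r : Fin N) :
    x * uu q r = ∑ p, x p q • uu p r := by
  ext a b
  rw [Matrix.mul_apply, Matrix.sum_apply]
  simp only [uu_apply, Matrix.smul_apply, smul_eq_mul]
  rw [Finset.sum_eq_single q, Finset.sum_eq_single a]
  · simp
  · intro c _ hc
    simp [hc]
  · intro h
    exact absurd (Finset.mem_univ _) h
  · intro c _ hc
    simp [Ne.symm hc]
  · intro h
    exact absurd (Finset.mem_univ _) h

theorem uu_mul (x : Matrix (Fin N) (Fin N) ℂ) (p q : Fin N) :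
    uu p q * x = ∑ r, x q r • uu p r := by
  ext a b
  rw [Matrix.mul_apply, Matrix.sum_apply]
  simp only [uu_apply, Matrix.smul_apply, smul_eq_mul]
  rw [Finset.sum_eq_single q, Finset.sum_eq_single b]
  · by_cases h : p = a <;> simp [h]
  · intro c _ hc
    simp [hc]
  · intro h
    exact absurd (Finset.mem_univ _) h
  · intro c _ hc
    simp [Ne.symm hc]
  · intro h
    exact absurd (Finset.mem_univ _) h

theorem uu_uu (p q r : Fin N) : uu p q * uu q r = uu p r := by
  unfold uu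
  rw [Matrix.single_mul_single_same, mul_one]

theorem sum_uu : ∑ p : Fin N, uu p p = 1 := by
  unfold uu
  exact Matrix.sum_single_one

variable {V : Type} [AddCommGroup V] [Module ℂ V]
variable {n : ℕ}

section defs

variable [NeZero N] (M : Fin n → Matrix (Fin N) (Fin N) ℂ →ₗ[ℂ] Module.End ℂ V) (σ : Fin n → ℂ)

/-- the multiplicity space -/
def RR (i : Fin n) : Submodule ℂ V := LinearMap.range (M i (uu 0 0))

/-- the map to the multiplicity space -/
def rr (i : Fin n) : V →ₗ[ℂ] RR M i := (M i (uu 0 0)).rangeRestrict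

/-- the types -/
abbrev TT : Type := (i : {i : Fin n // pos (σ i)}) × Fin (finrank ℂ (RR M i.1))

variable {σ} [FiniteDimensional ℂ V]

/-- the basis of the multiplicity space -/
def fv (t : TT M σ) : V := (finBasis ℂ (RR M t.1.1) t.2 : V)

/-- the vectors -/
def ev (p : Fin N) (t : TT M σ) : V := M t.1.1 (uu p 0) (fv M t)

/-- the coordinates -/
def ll (p : Fin N) (t : TT M σ) : V →ₗ[ℂ] ℂ :=
  (finBasis ℂ (RR M t.1.1)).coord t.2 ∘ₗ rr M t.1.1 ∘ₗ M t.1.1 (uu 0 p)

theorem ll_apply (p : Fin N) (t : TT M σ) (v : V) :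
    ll M p t v = (finBasis ℂ (RR M t.1.1)).coord t.2 (rr M t.1.1 (M t.1.1 (uu 0 p) v)) := rfl

omit [FiniteDimensional ℂ V] in
theorem rr_coe (i : Fin n) (v : V) : (rr M i v : V) = M i (uu 0 0) v := rfl

end defs

section lemmas

variable [NeZero N] {M : Fin n → Matrix (Fin N) (Fin N) ℂ →ₗ[ℂ] Module.End ℂ V} {σ : Fin n → ℂ}
variable [FiniteDimensional ℂ V] {B : Submodule ℂ (Module.End ℂ V)} {z : Module.End ℂ V}

theorem M_ev (h : Wd V B z N n M σ) (i : Fin n) (x : Matrix (Fin N) (Fin N) ℂ) (p : Fin N)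
    (t : TT M σ) : M i x (ev M p t) = if t.1.1 = i then ∑ q, x q p • ev M q t else 0 := by
  unfold ev
  rw [← Module.End.mul_apply]
  split_ifs with hi
  · rw [← hi, ← h.mul, mul_uu, map_sum, LinearMap.sum_apply]
    refine Finset.sum_congr rfl fun q _ => ?_
    rw [map_smul, LinearMap.smul_apply]
  · rw [h.orth i t.1.1 _ _ (Ne.symm hi)]
    rfl

theorem ll_M (h : Wd V B z N n M σ) (i : Fin n) (x : Matrix (Fin N) (Fin N) ℂ) (p : Fin N)
    (t : TT M σ) (v : V) :
    ll M p t (M i x v) = if t.1.1 = i then ∑ q, x p q • ll M q t v else 0 := by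
  rw [ll_apply, ← Module.End.mul_apply (M t.1.1 (uu 0 p))]
  split_ifs with hi
  · rw [← hi, ← h.mul, uu_mul, map_sum, LinearMap.sum_apply, map_sum, map_sum]
    refine Finset.sum_congr rfl fun q _ => ?_
    rw [map_smul, LinearMap.smul_apply, map_smul, map_smul]
    rfl
  · rw [h.orth t.1.1 i _ _ hi]
    simp

theorem M00_fv (h : Wd V B z N n M σ) (t : TT M σ) : M t.1.1 (uu 0 0) (fv M t) = fv M t := by
  unfold fv
  obtain ⟨w, hw⟩ := (finBasis ℂ (RR M t.1.1) t.2).2
  rw [← hw, ← Module.End.mul_apply, ← h.mul, uu_uu]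

theorem ll0_fv (h : Wd V B z N n M σ) (i : {i : Fin n // pos (σ i)})
    (a b : Fin (finrank ℂ (RR M i.1))) :
    ll M 0 (⟨i, a⟩ : TT M σ) (fv M (⟨i, b⟩ : TT M σ)) = if a = b then 1 else 0 := by
  have h0 : M i.1 (uu 0 0) (fv M (⟨i, b⟩ : TT M σ)) = fv M (⟨i, b⟩ : TT M σ) :=
    M00_fv h (⟨i, b⟩ : TT M σ)
  have h1 : rr M i.1 (fv M (⟨i, b⟩ : TT M σ)) = finBasis ℂ (RR M i.1) b := by
    apply Subtype.ext
    rw [rr_coe, h0]
    rfl
  have h2 : ll M 0 (⟨i, a⟩ : TT M σ) (fv M (⟨i, b⟩ : TT M σ)) =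
      (finBasis ℂ (RR M i.1)).coord a (rr M i.1 (M i.1 (uu 0 0) (fv M (⟨i, b⟩ : TT M σ)))) := rfl
  rw [h2, h0, h1, Basis.coord_apply, Basis.repr_self, Finsupp.single_apply]
  exact if_congr eq_comm rfl rfl

theorem ll_ev (h : Wd V B z N n M σ) (p q : Fin N) (t s : TT M σ) :
    ll M p t (ev M q s) = if p = q ∧ t = s then 1 else 0 := by
  unfold ev
  rw [ll_M h]
  obtain ⟨i, a⟩ := t
  obtain ⟨j, b⟩ := s
  by_cases hij : i = j
  · subst hij
    rw [if_pos rfl]
    simp only [uu_apply]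
    rw [Finset.sum_eq_single 0]
    · rw [ll0_fv h]
      by_cases hpq : p = q
      · by_cases hab : a = b
        · simp [hpq, hab]
        · simp [hpq, hab]
      · simp [hpq, Ne.symm hpq]
    · intro r _ hr
      simp [Ne.symm hr]
    · intro h
      exact absurd (Finset.mem_univ _) h
  · rw [if_neg, if_neg]
    · rintro ⟨_, h2⟩
      exact hij (congrArg Sigma.fst h2)
    · intro h2
      exact hij (Subtype.ext h2)

theorem M_one (h : Wd V B z N n M σ) (i : {i : Fin n // pos (σ i)}) (v : V) :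
    M i.1 1 v = ∑ p, ∑ a, ll M p (⟨i, a⟩ : TT M σ) v • ev M p (⟨i, a⟩ : TT M σ) := by
  rw [← sum_uu, map_sum, LinearMap.sum_apply]
  refine Finset.sum_congr rfl fun p _ => ?_
  have h1 : M i.1 (uu 0 p) v =
      ∑ a, ll M p (⟨i, a⟩ : TT M σ) v • fv M (⟨i, a⟩ : TT M σ) := by
    have h2 : (rr M i.1 (M i.1 (uu 0 p) v) : V) = M i.1 (uu 0 p) v := by
      rw [rr_coe, ← Module.End.mul_apply, ← h.mul, uu_uu]
    have h5 := (finBasis ℂ (RR M i.1)).sum_repr (rr M i.1 (M i.1 (uu 0 p) v))
    have h6 := congrArg (Subtype.val) h5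
    rw [AddSubmonoidClass.coe_finsetSum, h2] at h6
    exact h6.symm
  rw [← uu_uu p 0 p, h.mul, Module.End.mul_apply, h1, map_sum]
  refine Finset.sum_congr rfl fun a _ => ?_
  rw [map_smul]
  rfl

theorem z_ev (h : Wd V B z N n M σ) (p : Fin N) (t : TT M σ) :
    z (ev M p t) = σ t.1.1 • ev M p t := by
  unfold ev
  rw [← Module.End.mul_apply, h.zl]
  rfl

theorem ll_z (h : Wd V B z N n M σ) (p : Fin N) (t : TT M σ) (v : V) :
    ll M p t (z v) = σ t.1.1 * ll M p t v := by
  rw [ll_apply, ← Module.End.mul_apply (M t.1.1 (uu 0 p)), h.zr, LinearMap.smul_apply, map_smul,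
    map_smul, smul_eq_mul]
  rfl

theorem sig_ne (h : Wd V B z N n M σ) (hz : Function.Injective z) (i : Fin n) : σ i ≠ 0 := by
  intro h0
  apply h.ne i
  apply LinearMap.ext
  intro v
  apply hz
  rw [LinearMap.zero_apply, map_zero, ← Module.End.mul_apply, h.zl, h0, zero_smul]
  rfl

end lemmas

section form

variable [NeZero N] {M : Fin n → Matrix (Fin N) (Fin N) ℂ →ₗ[ℂ] Module.End ℂ V} {σ : Fin n → ℂ}
variable [FiniteDimensional ℂ V] {E B : Submodule ℂ (Module.End ℂ V)} {z : Module.End ℂ V}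
variable {ω : V →ₗ[ℂ] V →ₗ[ℂ] ℂ}

theorem iso0 {ω : V →ₗ[ℂ] V →ₗ[ℂ] ℂ} {z : Module.End ℂ V}
    (hs : ∀ u v, ω (z u) v = -ω u (z v)) {a b : V} {α β : ℂ} (ha : z a = α • a)
    (hb : z b = β • b) (hab : α + β ≠ 0) : ω a b = 0 := by
  have h1 := hs a b
  rw [ha, hb, map_smul, LinearMap.smul_apply, map_smul, smul_eq_mul, smul_eq_mul] at h1
  have h2 : (α + β) * ω a b = 0 := by linear_combination h1
  exact (mul_eq_zero.1 h2).resolve_left hab

theorem nd2 (h : Alg2 V ω E B z N) {a b : V} (hab : ∀ u, ω u a = ω u b) : a = b := by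
  rw [← sub_eq_zero]
  apply h.nondeg
  intro v
  rw [h.alt, map_sub, hab, sub_self, neg_zero]

theorem nd1 (h : Alg2 V ω E B z N) {a b : V} (hab : ∀ u, ω a u = ω b u) : a = b := by
  apply nd2 h
  intro u
  rw [h.alt, hab, ← h.alt]

theorem exd (h : Alg2 V ω E B z N) (l : V →ₗ[ℂ] ℂ) : ∃ v, ∀ u, ω u v = l u := by
  have hinj : Function.Injective ω.flip := by
    intro a b hab
    apply nd2 h
    intro u
    exact LinearMap.congr_fun hab u
  have hsur : Function.Surjective ω.flip :=
    (LinearMap.injective_iff_surjective_of_finrank_eq_finrank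
      (Subspace.dual_finrank_eq (K := ℂ) (V := V)).symm).1 hinj
  obtain ⟨v, hv⟩ := hsur l
  exact ⟨v, fun u => LinearMap.congr_fun hv u⟩

theorem ev_ev (h : Alg2 V ω E B z N) (hw : Wd V B z N n M σ) (p q : Fin N) (t s : TT M σ) :
    ω (ev M p t) (ev M q s) = 0 :=
  iso0 h.skew (z_ev hw p t) (z_ev hw q s) (pos_add t.1.2 s.1.2)

/-- the dual vectors -/
def IsD (ω : V →ₗ[ℂ] V →ₗ[ℂ] ℂ) (dv : Fin N → TT M σ → V) : Prop :=
  ∀ p t u, ω u (dv p t) = ll M p t u

theorem z_dv (h : Alg2 V ω E B z N) (hw : Wd V B z N n M σ) {dv : Fin N → TT M σ → V}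
    (hd : IsD ω dv) (p : Fin N) (t : TT M σ) : z (dv p t) = (-σ t.1.1) • dv p t := by
  apply nd2 h
  intro u
  have h1 := h.skew u (dv p t)
  rw [hd p t, ll_z hw] at h1
  rw [map_smul, smul_eq_mul, hd p t]
  linear_combination h1

theorem dv_dv (h : Alg2 V ω E B z N) (hw : Wd V B z N n M σ) {dv : Fin N → TT M σ → V}
    (hd : IsD ω dv) (p q : Fin N) (t s : TT M σ) : ω (dv p t) (dv q s) = 0 := by
  apply iso0 h.skew (z_dv h hw hd p t) (z_dv h hw hd q s)
  intro h0
  apply pos_add t.1.2 s.1.2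
  linear_combination -h0

theorem ev_dv (hw : Wd V B z N n M σ) {dv : Fin N → TT M σ → V}
    (hd : IsD ω dv) (p q : Fin N) (t s : TT M σ) :
    ω (ev M p t) (dv q s) = if q = p ∧ s = t then 1 else 0 := by
  rw [hd, ll_ev hw]

theorem dv_ev (h : Alg2 V ω E B z N) (hw : Wd V B z N n M σ) {dv : Fin N → TT M σ → V}
    (hd : IsD ω dv) (p q : Fin N) (t s : TT M σ) :
    ω (dv q s) (ev M p t) = -if q = p ∧ s = t then 1 else 0 := by
  rw [h.alt, ev_dv hw hd]

theorem eq_zero_of (h : Alg2 V ω E B z N) (hw : Wd V B z N n M σ) {v : V}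
    (h1 : ∀ p (t : TT M σ), ll M p t v = 0) (h2 : ∀ p (t : TT M σ), ω v (ev M p t) = 0) :
    v = 0 := by
  apply h.nondeg
  intro w
  have hsum : ∀ w : V, w = ∑ i, M i 1 w := by
    intro w
    have := LinearMap.congr_fun hw.one w
    rw [LinearMap.sum_apply] at this
    exact this.symm
  rw [hsum w, map_sum]
  refine Finset.sum_eq_zero fun j _ => ?_
  by_cases hj : pos (σ j)
  · rw [M_one hw ⟨j, hj⟩, map_sum]
    refine Finset.sum_eq_zero fun p _ => ?_
    rw [map_sum]
    refine Finset.sum_eq_zero fun a _ => ?_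
    rw [map_smul, h2, smul_zero]
  · have h3 : ∀ i, ω (M i 1 v) (M j 1 w) = 0 := by
      intro i
      by_cases hi : pos (σ i)
      · rw [M_one hw ⟨i, hi⟩]
        simp only [h1, zero_smul, Finset.sum_const_zero, map_zero, LinearMap.zero_apply]
      · have e1 : z (M i 1 v) = σ i • M i 1 v := by
          rw [← Module.End.mul_apply, hw.zl]
          rfl
        have e2 : z (M j 1 w) = σ j • M j 1 w := by
          rw [← Module.End.mul_apply, hw.zl]
          rfl
        exact iso0 h.skew e1 e2 (npos_add (sig_ne hw h.inj i) hi hj)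
    rw [hsum v, map_sum, LinearMap.sum_apply]
    exact Finset.sum_eq_zero fun i _ => h3 i

theorem expand (h : Alg2 V ω E B z N) (hw : Wd V B z N n M σ) {dv : Fin N → TT M σ → V}
    (hd : IsD ω dv) (v : V) :
    v = ∑ y : Fin N × TT M σ, ll M y.1 y.2 v • ev M y.1 y.2 +
      ∑ y : Fin N × TT M σ, ω (ev M y.1 y.2) v • dv y.1 y.2 := by
  rw [← sub_eq_zero]
  have key : ∀ (f : Fin N × TT M σ → ℂ) (p : Fin N) (t : TT M σ),
      ∑ y : Fin N × TT M σ, f y * (if p = y.1 ∧ t = y.2 then (1 : ℂ) else 0) = f (p, t) := by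
    intro f p t
    rw [Finset.sum_eq_single (p, t)]
    · simp
    · rintro ⟨a, b⟩ _ hab
      rw [if_neg, mul_zero]
      rintro ⟨rfl, rfl⟩
      exact hab rfl
    · intro h
      exact absurd (Finset.mem_univ _) h
  apply eq_zero_of h hw
  · intro p t
    rw [map_sub, map_add, map_sum, map_sum]
    have e1 : ∑ y : Fin N × TT M σ, ll M p t (ll M y.1 y.2 v • ev M y.1 y.2) = ll M p t v := by
      have := key (fun y => ll M y.1 y.2 v) p t
      simp only [map_smul, smul_eq_mul, ll_ev hw]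
      exact this
    have e2 : ∑ y : Fin N × TT M σ, ll M p t (ω (ev M y.1 y.2) v • dv y.1 y.2) = 0 := by
      refine Finset.sum_eq_zero fun y _ => ?_
      rw [map_smul, ← hd, dv_dv h hw hd, smul_zero]
    rw [e1, e2]
    ring
  · intro p t
    rw [h.alt, map_sub, map_add, map_sum, map_sum]
    have e1 : ∑ y : Fin N × TT M σ, ω (ev M p t) (ll M y.1 y.2 v • ev M y.1 y.2) = 0 := by
      refine Finset.sum_eq_zero fun y _ => ?_
      rw [map_smul, ev_ev h hw, smul_zero]
    have e2 : ∑ y : Fin N × TT M σ, ω (ev M p t) (ω (ev M y.1 y.2) v • dv y.1 y.2) =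
        ω (ev M p t) v := by
      have := key (fun y => ω (ev M y.1 y.2) v) p t
      simp only [map_smul, smul_eq_mul, ev_dv hw hd]
      rw [← this]
      refine Finset.sum_congr rfl fun y _ => ?_
      congr 1
      exact if_congr (by tauto) rfl rfl
    rw [e1, e2]
    ring

/-- the vectors of the basis -/
def vec (dv : Fin N → TT M σ → V) (x : Ix N (TT M σ)) : V :=
  if x.1 then ev M x.2.1 x.2.2 else dv x.2.1 x.2.2

theorem sum_Ix {A : Type} [AddCommMonoid A] (f : Ix N (TT M σ) → A) :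
    ∑ x, f x = ∑ y : Fin N × TT M σ, f (true, y) + ∑ y : Fin N × TT M σ, f (false, y) := by
  rw [Fintype.sum_prod_type, Fintype.sum_bool]

theorem li_vec (h : Alg2 V ω E B z N) (hw : Wd V B z N n M σ) {dv : Fin N → TT M σ → V}
    (hd : IsD ω dv) : LinearIndependent ℂ (vec dv) := by
  rw [Fintype.linearIndependent_iff]
  intro g hg
  rw [sum_Ix] at hg
  simp only [vec, if_true, Bool.false_eq_true, if_false] at hg
  have hF : ∀ p t, g (false, p, t) = 0 := by
    intro p t
    have h1 := congrArg (ω (ev M p t)) hg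
    rw [map_add, map_sum, map_sum, map_zero] at h1
    rw [Finset.sum_eq_zero, zero_add, Finset.sum_eq_single (p, t)] at h1
    · rw [map_smul, ev_dv hw hd] at h1
      simpa using h1
    · rintro ⟨a, b⟩ _ hab
      rw [map_smul, ev_dv hw hd, if_neg, smul_zero]
      rintro ⟨h2, h3⟩
      exact hab (Prod.ext h2 h3)
    · intro h
      exact absurd (Finset.mem_univ _) h
    · intro y _
      rw [map_smul, ev_ev h hw, smul_zero]
  have hT : ∀ p t, g (true, p, t) = 0 := by
    intro p t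
    have h1 := congrArg (ω.flip (dv p t)) hg
    rw [map_add, map_sum, map_sum, map_zero] at h1
    simp only [LinearMap.flip_apply, map_smul, LinearMap.smul_apply] at h1
    rw [add_comm, Finset.sum_eq_zero, zero_add, Finset.sum_eq_single (p, t)] at h1
    · rw [ev_dv hw hd] at h1
      simpa using h1
    · rintro ⟨a, b⟩ _ hab
      rw [ev_dv hw hd, if_neg, smul_zero]
      rintro ⟨h2, h3⟩
      exact hab (Prod.ext h2.symm h3.symm)
    · intro h
      exact absurd (Finset.mem_univ _) h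
    · intro y _
      rw [dv_dv h hw hd, smul_zero]
  rintro ⟨b, p, t⟩
  cases b
  · exact hF p t
  · exact hT p t

theorem sp_vec (h : Alg2 V ω E B z N) (hw : Wd V B z N n M σ) {dv : Fin N → TT M σ → V}
    (hd : IsD ω dv) : ⊤ ≤ Submodule.span ℂ (Set.range (vec dv)) := by
  rintro v -
  rw [expand h hw hd v]
  refine Submodule.add_mem _ ?_ ?_
  · refine Submodule.sum_mem _ fun y _ => Submodule.smul_mem _ _ (Submodule.subset_span ?_)
    exact ⟨(true, y), rfl⟩
  · refine Submodule.sum_mem _ fun y _ => Submodule.smul_mem _ _ (Submodule.subset_span ?_)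
    exact ⟨(false, y), rfl⟩

/-- the basis -/
def bas (h : Alg2 V ω E B z N) (hw : Wd V B z N n M σ) {dv : Fin N → TT M σ → V}
    (hd : IsD ω dv) : Basis (Ix N (TT M σ)) ℂ V := Basis.mk (li_vec h hw hd) (sp_vec h hw hd)

theorem bas_true (h : Alg2 V ω E B z N) (hw : Wd V B z N n M σ) {dv : Fin N → TT M σ → V}
    (hd : IsD ω dv) (p : Fin N) (t : TT M σ) : bas h hw hd (true, p, t) = ev M p t := by
  unfold bas
  rw [Basis.mk_apply]
  rfl

theorem bas_false (h : Alg2 V ω E B z N) (hw : Wd V B z N n M σ) {dv : Fin N → TT M σ → V}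
    (hd : IsD ω dv) (p : Fin N) (t : TT M σ) : bas h hw hd (false, p, t) = dv p t := by
  unfold bas
  rw [Basis.mk_apply]
  rfl

end form

end Pool.Agent.N803.LC
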