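import Pool.Agent.N208.LC.Stm

/-!
# The decomposition of the algebra `B` of `Alg2`
-/

set_option autoImplicit false

open Module

noncomputable section

namespace Pool.Agent.N803.LC

open Pool.Agent.N208.LC

/-- The algebra `B` is the product of `n` matrix algebras of size `N`. -/
structure Wd (V : Type) [AddCommGroup V] [Module ℂ V] (B : Submodule ℂ (Module.End ℂ V))
    (z : Module.End ℂ V) (N n : ℕ)
    (M : Fin n → Matrix (Fin N) (Fin N) ℂ →ₗ[ℂ] Module.End ℂ V) (σ : Fin n → ℂ) : Prop where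
  mem : ∀ i x, M i x ∈ B
  mul : ∀ i x y, M i (x * y) = M i x * M i y
  orth : ∀ i j x y, i ≠ j → M i x * M j y = 0
  one : ∑ i, M i 1 = 1
  surj : ∀ X ∈ B, ∃ x : Fin n → Matrix (Fin N) (Fin N) ℂ, X = ∑ i, M i (x i)
  zl : ∀ i x, z * M i x = σ i • M i x
  zr : ∀ i x, M i x * z = σ i • M i x
  inj : Function.Injective σ
  ne : ∀ i, M i 1 ≠ 0

variable {V : Type} [AddCommGroup V] [Module ℂ V]

/-- `B` as a subalgebra -/
def AA (E : Submodule ℂ (Module.End ℂ V)) : Subalgebra ℂ (Module.End ℂ V) :=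
  Subalgebra.centralizer ℂ (E : Set (Module.End ℂ V))

theorem mem_AA {ω : V →ₗ[ℂ] V →ₗ[ℂ] ℂ} {E B : Submodule ℂ (Module.End ℂ V)}
    {z : Module.End ℂ V} {N : ℕ} (h : Alg2 V ω E B z N) (X : Module.End ℂ V) :
    X ∈ AA E ↔ X ∈ B := by
  unfold AA
  rw [Subalgebra.mem_centralizer_iff, h.commB]
  exact ⟨fun H Q hQ => (H Q hQ).symm, fun H Q hQ => (H Q hQ).symm⟩

theorem semi_AA {ω : V →ₗ[ℂ] V →ₗ[ℂ] ℂ} {E B : Submodule ℂ (Module.End ℂ V)}
    {z : Module.End ℂ V} {N : ℕ} (h : Alg2 V ω E B z N) : IsSemisimpleModule (AA E) V := by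
  have hc : ComplementedLattice (Submodule (AA E) V) := by
    constructor
    intro U
    let U0 : Submodule ℂ V := U.restrictScalars ℂ
    obtain ⟨U', hU', hc⟩ := h.semi U0 (by
      intro X hX u hu
      have h1 : (⟨X, (mem_AA h X).2 hX⟩ : AA E) • u ∈ U := U.smul_mem _ hu
      exact h1)
    let U1 : Submodule (AA E) V :=
      { carrier := U'
        add_mem' := fun ha hb => U'.add_mem ha hb
        zero_mem' := U'.zero_mem
        smul_mem' := by
          rintro ⟨X, hX⟩ u hu
          exact hU' X ((mem_AA h X).1 hX) u hu }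
    refine ⟨U1, ?_⟩
    rw [isCompl_iff, disjoint_iff, codisjoint_iff] at hc ⊢
    constructor
    · rw [eq_bot_iff]
      rintro v ⟨h1, h2⟩
      have h3 : v ∈ U0 ⊓ U' := ⟨h1, h2⟩
      rw [hc.1] at h3
      exact h3
    · rw [eq_top_iff]
      rintro v -
      have h3 : v ∈ U0 ⊔ U' := by
        rw [hc.2]
        exact Submodule.mem_top
      obtain ⟨a, ha, b, hb, hab⟩ := Submodule.mem_sup.1 h3
      exact Submodule.mem_sup.2 ⟨a, ha, b, hb, hab⟩
  exact ⟨⟩

theorem semiRing_AA [FiniteDimensional ℂ V] {ω : V →ₗ[ℂ] V →ₗ[ℂ] ℂ}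
    {E B : Submodule ℂ (Module.End ℂ V)}
    {z : Module.End ℂ V} {N : ℕ} (h : Alg2 V ω E B z N) : IsSemisimpleRing (AA E) := by
  have h1 : IsSemisimpleModule (AA E) V := semi_AA h
  have h2 : IsArtinianRing (AA E) := IsArtinianRing.of_finite ℂ (AA E)
  rw [IsArtinianRing.isSemisimpleRing_iff_jacobson, eq_bot_iff]
  intro X hX
  have h3 := Ring.jacobson_smul_top_le (AA E) V
  rw [IsSemisimpleModule.jacobson_eq_bot] at h3
  have h4 : ∀ v : V, X • v = 0 := by
    intro v
    have h5 := h3 (Submodule.smul_mem_smul hX (Submodule.mem_top (x := v)))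
    simpa using h5
  rw [Ideal.mem_bot]
  apply Subtype.ext
  apply LinearMap.ext
  intro v
  exact h4 v

/-- the central elements are scalars -/
theorem central_scalar {n : ℕ} {d : Fin n → ℕ} (x : Π i, Matrix (Fin (d i)) (Fin (d i)) ℂ)
    (hx : ∀ y, x * y = y * x) (i : Fin n) [NeZero (d i)] : ∃ c : ℂ, x i = c • 1 := by
  have h1 : x i ∈ Set.range (Matrix.scalar (Fin (d i)) (α := ℂ)) := by
    rw [Matrix.mem_range_scalar_iff_commute_single]
    intro p q _
    have h2 := congrFun (hx (Pi.single i (Matrix.single p q 1))) i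
    rw [Pi.mul_apply, Pi.mul_apply, Pi.single_eq_same] at h2
    exact h2.symm
  obtain ⟨c, hc⟩ := h1
  refine ⟨c, ?_⟩
  rw [← hc, Matrix.scalar_apply, Matrix.smul_one_eq_diagonal]

theorem wedd [FiniteDimensional ℂ V] {ω : V →ₗ[ℂ] V →ₗ[ℂ] ℂ}
    {E B : Submodule ℂ (Module.End ℂ V)}
    {z : Module.End ℂ V} {N : ℕ} (h : Alg2 V ω E B z N) :
    ∃ (n : ℕ) (M : Fin n → Matrix (Fin N) (Fin N) ℂ →ₗ[ℂ] Module.End ℂ V) (σ : Fin n → ℂ),
      Wd V B z N n M σ := by
  have hss : IsSemisimpleRing (AA E) := semiRing_AA h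
  obtain ⟨n, d, hd, ⟨Φ⟩⟩ := IsSemisimpleRing.exists_algEquiv_pi_matrix_of_isAlgClosed ℂ (AA E)
  have hzA : z ∈ AA E := (mem_AA h z).2 h.zB
  set Z : AA E := ⟨z, hzA⟩ with hZ
  -- z is central
  have hZc : ∀ Y : AA E, Z * Y = Y * Z := by
    intro Y
    apply Subtype.ext
    have h1 := (h.commE z).1 h.zE Y.1 ((mem_AA h Y.1).1 Y.2)
    exact h1.symm
  have hΦc : ∀ y, Φ Z * y = y * Φ Z := by
    intro y
    obtain ⟨Y, rfl⟩ := Φ.surjective y
    rw [← map_mul, ← map_mul, hZc]
  choose σ hσ using fun i => (haveI := hd i; central_scalar (Φ Z) hΦc i)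
  -- idempotents are polynomials in z
  have hpoly : ∀ i, ∃ q : Polynomial ℂ, Φ.symm (Pi.single i 1) = Polynomial.aeval Z q := by
    intro i
    set C : AA E := Φ.symm (Pi.single i 1) with hC
    have hCc : ∀ Y : AA E, Y * C = C * Y := by
      intro Y
      apply Φ.injective
      rw [map_mul, map_mul, hC, AlgEquiv.apply_symm_apply]
      funext j
      rw [Pi.mul_apply, Pi.mul_apply]
      by_cases hj : j = i
      · subst hj
        rw [Pi.single_eq_same, mul_one, one_mul]
      · rw [Pi.single_eq_of_ne hj, mul_zero, zero_mul]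
    have hCB : (C : Module.End ℂ V) ∈ B := (mem_AA h _).1 C.2
    have hCE : (C : Module.End ℂ V) ∈ E := by
      rw [h.commE]
      intro X hX
      have h1 := hCc ⟨X, (mem_AA h X).2 hX⟩
      exact congrArg Subtype.val h1
    obtain ⟨q, hq⟩ := h.cen _ hCE hCB
    refine ⟨q, ?_⟩
    apply Subtype.ext
    rw [hq]
    have h2 := Polynomial.aeval_algHom_apply (AA E).val Z q
    rw [← hZ] at *
    exact h2
  have hZpow : ∀ (q : Polynomial ℂ) (i : Fin n), Φ (Polynomial.aeval Z q) i =
      (Polynomial.eval (σ i) q) • (1 : Matrix (Fin (d i)) (Fin (d i)) ℂ) := by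
    intro q i
    have h1 : Φ (Polynomial.aeval Z q) = Polynomial.aeval (Φ Z) q :=
      (Polynomial.aeval_algHom_apply Φ.toAlgHom Z q).symm
    rw [h1]
    have h2 := Polynomial.aeval_algHom_apply
      (Pi.evalAlgHom ℂ (fun i => Matrix (Fin (d i)) (Fin (d i)) ℂ) i) (Φ Z) q
    have h3 : (Pi.evalAlgHom ℂ (fun i => Matrix (Fin (d i)) (Fin (d i)) ℂ) i) (Φ Z) =
        algebraMap ℂ (Matrix (Fin (d i)) (Fin (d i)) ℂ) (σ i) := by
      rw [Algebra.algebraMap_eq_smul_one]
      exact hσ i
    rw [h3, Polynomial.aeval_algebraMap_apply, Algebra.algebraMap_eq_smul_one] at h2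
    simpa using h2.symm
  have hσinj : Function.Injective σ := by
    intro i j hij
    by_contra hne
    have := hd i
    have := hd j
    obtain ⟨q, hq⟩ := hpoly i
    have h1 : Pi.single i 1 = Φ (Polynomial.aeval Z q) := by
      rw [← hq, AlgEquiv.apply_symm_apply]
    have h2 := congrFun h1 i
    have h3 := congrFun h1 j
    rw [hZpow, Pi.single_eq_same] at h2
    rw [hZpow, Pi.single_eq_of_ne (Ne.symm hne), ← hij] at h3
    have h4 := congrFun (congrFun h2 0) 0
    have h5 := congrFun (congrFun h3 0) 0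
    simp at h4 h5
    rw [← h5] at h4
    exact one_ne_zero h4
  -- the operators
  set ι : ∀ i, Matrix (Fin (d i)) (Fin (d i)) ℂ →ₗ[ℂ] Module.End ℂ V := fun i =>
    (AA E).val.toLinearMap ∘ₗ Φ.symm.toLinearEquiv.toLinearMap ∘ₗ
      LinearMap.single ℂ (fun i => Matrix (Fin (d i)) (Fin (d i)) ℂ) i with hι
  have hιa : ∀ i x, ι i x = ((Φ.symm (Pi.single i x) : AA E) : Module.End ℂ V) := fun i x => rfl
  have hιB : ∀ i x, ι i x ∈ B := fun i x => (mem_AA h _).1 (by rw [hιa]; exact Subtype.prop _)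
  have hιmul : ∀ i x y, ι i (x * y) = ι i x * ι i y := by
    intro i x y
    rw [hιa, hιa, hιa, ← MulMemClass.coe_mul, ← map_mul, Pi.single_mul]
  have hιorth : ∀ i j x y, i ≠ j → ι i x * ι j y = 0 := by
    intro i j x y hij
    rw [hιa, hιa, ← MulMemClass.coe_mul, ← map_mul]
    have h1 : (Pi.single i x : Π i, Matrix (Fin (d i)) (Fin (d i)) ℂ) * Pi.single j y = 0 := by
      funext k
      rw [Pi.mul_apply]
      by_cases hk : k = i
      · subst hk
        rw [Pi.single_eq_of_ne hij, mul_zero]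
        rfl
      · rw [Pi.single_eq_of_ne hk, zero_mul]
        rfl
    rw [h1, map_zero]
    rfl
  have hιsum : ∀ x : Π i, Matrix (Fin (d i)) (Fin (d i)) ℂ,
      ((Φ.symm x : AA E) : Module.End ℂ V) = ∑ i, ι i (x i) := by
    intro x
    simp_rw [hιa]
    rw [← AddSubmonoidClass.coe_finsetSum, ← map_sum, Finset.univ_sum_single]
  have hιone : ∑ i, ι i 1 = 1 := by
    have h1 := hιsum 1
    rw [map_one] at h1
    exact h1.symm
  have hιsurj : ∀ X ∈ B, ∃ x : Π i, Matrix (Fin (d i)) (Fin (d i)) ℂ, X = ∑ i, ι i (x i) := by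
    intro X hX
    refine ⟨Φ ⟨X, (mem_AA h X).2 hX⟩, ?_⟩
    rw [← hιsum, AlgEquiv.symm_apply_apply]
  have hιinj : ∀ i, Function.Injective (ι i) := by
    intro i x y hxy
    rw [hιa, hιa] at hxy
    have h1 := Φ.symm.injective (Subtype.ext hxy)
    exact Pi.single_injective i h1
  have hιz : ∀ i x, ι i x * z = σ i • ι i x := by
    intro i x
    have h1 : Φ.symm (Pi.single i x) * Z = σ i • Φ.symm (Pi.single i x) := by
      apply Φ.injective
      rw [map_mul, map_smul, AlgEquiv.apply_symm_apply]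
      funext j
      rw [Pi.mul_apply, Pi.smul_apply]
      by_cases hj : j = i
      · subst hj
        rw [Pi.single_eq_same, hσ, mul_smul_comm, mul_one]
      · rw [Pi.single_eq_of_ne hj, zero_mul, smul_zero]
    exact congrArg Subtype.val h1
  have hιz' : ∀ i x, z * ι i x = σ i • ι i x := by
    intro i x
    rw [← hιz, (h.commE z).1 h.zE (ι i x) (hιB i x)]
  have hιne : ∀ i, ι i 1 ≠ 0 := by
    intro i h0
    have := hd i
    rw [← map_zero (ι i)] at h0
    exact one_ne_zero (hιinj i h0)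
  -- the sizes
  have hdN : ∀ i, d i = N := by
    intro i
    have hex : ∃ v, v ≠ 0 ∧ z v = σ i • v := by
      have h1 : ∃ w, ι i 1 w ≠ 0 := by
        by_contra hcon
        push Not at hcon
        exact hιne i (LinearMap.ext hcon)
      obtain ⟨w, hw⟩ := h1
      refine ⟨ι i 1 w, hw, ?_⟩
      have h2 := LinearMap.congr_fun (hιz' i 1) w
      exact h2
    have hdim := h.dim (σ i) hex
    have hrange : LinearMap.range (ι i) =
        (B ⊓ LinearMap.ker (LinearMap.mulRight ℂ (z - σ i • (1 : Module.End ℂ V)))) := by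
      apply le_antisymm
      · rintro _ ⟨x, rfl⟩
        refine ⟨hιB i x, ?_⟩
        rw [SetLike.mem_coe, LinearMap.mem_ker, LinearMap.mulRight_apply, mul_sub, hιz,
          mul_smul_comm, mul_one, sub_self]
      · rintro X ⟨hX1, hX2⟩
        rw [SetLike.mem_coe, LinearMap.mem_ker, LinearMap.mulRight_apply, mul_sub,
          mul_smul_comm, mul_one, sub_eq_zero] at hX2
        obtain ⟨x, hx⟩ := hιsurj X hX1
        refine ⟨x i, ?_⟩
        have h1 : ∀ j, j ≠ i → ι j (x j) = 0 := by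
          intro j hj
          have h2 : ι j 1 * X = ι j (x j) := by
            rw [hx, Finset.mul_sum, Finset.sum_eq_single j]
            · rw [← hιmul, one_mul]
            · intro k _ hk
              exact hιorth j k _ _ (Ne.symm hk)
            · intro h3
              exact absurd (Finset.mem_univ _) h3
          have h3 : σ j • ι j (x j) = σ i • ι j (x j) := by
            rw [← hιz, ← h2, mul_assoc, hX2, mul_smul_comm]
          by_contra h4
          have h5 : (σ j - σ i) • ι j (x j) = 0 := by rw [sub_smul, h3, sub_self]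
          rcases smul_eq_zero.1 h5 with h6 | h6
          · exact hj (hσinj (sub_eq_zero.1 h6))
          · exact h4 h6
        rw [hx, Finset.sum_eq_single i (fun j _ hj => h1 j hj)
          (fun h3 => absurd (Finset.mem_univ _) h3)]
    rw [← hrange, LinearMap.finrank_range_of_inj (hιinj i), Module.finrank_matrix] at hdim
    simp only [Fintype.card_fin, finrank_self, mul_one] at hdim
    nlinarith [hdim, Nat.pow_left_injective (n := 2) (by norm_num) (a₁ := d i) (a₂ := N)
      (by simpa [pow_two] using hdim)]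
  obtain rfl : d = fun _ => N := funext hdN
  exact ⟨n, ι, σ, ⟨hιB, hιmul, hιorth, hιone, hιsurj, hιz', hιz, hσinj, hιne⟩⟩

end Pool.Agent.N803.LC
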